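import Pool.Agent.Y821.DD.Grid

/-!
# Distinct distances in the square lattice: all constants below `(log 2) / 4`

For every `c < (log 2) / 4` one has `s(n) ≤ n ^ (1/2 - c / log log n)` for all large perfect squares
`n`. More generally a subset of the `√n × √n` lattice in which every distance occurs at most `L`
times has at most `√L n ^ (1/2 - c / log log n)` points, uniformly in `L ≥ 1`.

Proof. Let `P` be a set of primes that are `1` modulo `4`, `d` their product. There are `2 ^ |P|`
sublattices of index `d` given by the choice of a square root of `-1` modulo every `p ∈ P`; on each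
of them the squared length is divisible by `d`. Cauchy-Schwarz on the cosets of each of them gives
`2 ^ |P| |S|² ≤ d 2 ^ |P| |S| + 4 L n ∏ (1 + 1/p)` (the counting inequality of the file
`Pool.Agent.H264R2.Pigeon`). By the prime number theorem for the residue class `1` modulo `4` one
can take `|P| ≥ (1/2 - ε) log n / log log n` large primes with `d ≤ n ^ (1/2 - ε')`.
-/

set_option autoImplicit false

namespace Pool.Agent.Results.MP_0cbd55_co.QuarterLogTwo

open Finset Pool.Agent.H264R2.Pigeon

/-- Euclidean distance of two lattice points. -/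
noncomputable def eucl (a b : ℤ × ℤ) : ℝ :=
  Real.sqrt (((a.1 : ℝ) - b.1) ^ 2 + ((a.2 : ℝ) - b.2) ^ 2)

/-- The `m × m` integer lattice `{1,…,m}²`. -/
noncomputable def lattice (m : ℕ) : Finset (ℤ × ℤ) := Finset.Icc (1 : ℤ) m ×ˢ Finset.Icc (1 : ℤ) m

/-- `S` spans no distance more than once. -/
def NoRepeat (S : Finset (ℤ × ℤ)) : Prop :=
  ∀ a ∈ S, ∀ b ∈ S, ∀ c ∈ S, ∀ e ∈ S, a ≠ b → c ≠ e → eucl a b = eucl c e →
    (a = c ∧ b = e) ∨ (a = e ∧ b = c)

open Classical in
/-- `s n`, for a perfect square `n = m²`: the largest size of a subset of the `m × m` lattice that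
spans no distance more than once (`m = Nat.sqrt n`). -/
noncomputable def s (n : ℕ) : ℕ :=
  ((lattice (Nat.sqrt n)).powerset.filter NoRepeat).sup Finset.card

open Classical in
/-- Every positive distance occurs for at most `L` unordered pairs, that is for at most `2 L`
ordered pairs, of points of `S`. -/
def AtMost (L : ℕ) (S : Finset (ℤ × ℤ)) : Prop :=
  ∀ t : ℝ, 0 < t → ((S ×ˢ S).filter (fun x => eucl x.1 x.2 = t)).card ≤ 2 * L

lemma eucl_nd (x : (ℤ × ℤ) × (ℤ × ℤ)) : eucl x.1 x.2 = √((nd x : ℕ) : ℝ) := by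
  have h1 := nd_cast x
  have h2 : ((nd x : ℕ) : ℝ) = ((x.1.1 : ℝ) - x.2.1) ^ 2 + ((x.1.2 : ℝ) - x.2.2) ^ 2 := by
    have h3 : (((nd x : ℕ) : ℤ) : ℝ) = ((N2 (x.1 - x.2) : ℤ) : ℝ) := by rw [h1]
    unfold N2 at h3
    simp only [Prod.fst_sub, Prod.snd_sub] at h3
    push_cast at h3
    exact h3
  rw [h2]
  rfl

lemma atMost_nd {L : ℕ} {S : Finset (ℤ × ℤ)} (hS : AtMost L S) (m : ℕ) (hm : 0 < m) :
    ((S ×ˢ S).filter (fun x => nd x = m)).card ≤ 2 * L := by
  classical
  have hm' : (0 : ℝ) < √(m : ℝ) := Real.sqrt_pos.2 (by exact_mod_cast hm)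
  refine le_trans (card_le_card ?_) (hS _ hm')
  intro x hx
  rw [mem_filter] at hx ⊢
  exact ⟨hx.1, by rw [eucl_nd, hx.2]⟩

lemma noRepeat_atMost {S : Finset (ℤ × ℤ)} (hS : NoRepeat S) : AtMost 1 S := by
  classical
  intro t ht
  rcases Finset.eq_empty_or_nonempty ((S ×ˢ S).filter (fun x => eucl x.1 x.2 = t)) with h | ⟨y, hy⟩
  · rw [h]; simp
  · have hsub : (S ×ˢ S).filter (fun x => eucl x.1 x.2 = t) ⊆ {y, (y.2, y.1)} := by
      intro x hx
      rw [mem_filter, mem_product] at hx hy
      have hne : ∀ z : (ℤ × ℤ) × (ℤ × ℤ), eucl z.1 z.2 = t → z.1 ≠ z.2 := by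
        intro z hz h
        rw [h] at hz
        unfold eucl at hz
        simp at hz
        linarith
      have := hS x.1 hx.1.1 x.2 hx.1.2 y.1 hy.1.1 y.2 hy.1.2 (hne x hx.2) (hne y hy.2)
        (hx.2.trans hy.2.symm)
      rw [mem_insert, mem_singleton]
      rcases this with ⟨h1, h2⟩ | ⟨h1, h2⟩
      · left; exact Prod.ext h1 h2
      · right; exact Prod.ext h1 h2
    exact (card_le_card hsub).trans (Finset.card_le_two.trans (by norm_num))

/-- For every `c < (log 2) / 4`: for all large perfect squares `n = m²` the largest subset of the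
`m × m` lattice that spans no distance more than once has at most `n ^ (1/2 - c / log log n)`
points, and every subset in which each distance occurs at most `L ≥ 1` times has at most
`√L n ^ (1/2 - c / log log n)` points. -/
theorem result : ∀ c : ℝ, c < Real.log 2 / 4 → ∃ m₀ : ℕ, ∀ m n : ℕ, m₀ ≤ m → n = m ^ 2 →
    (s n : ℝ) ≤ (n : ℝ) ^ (1 / 2 - c / Real.log (Real.log n)) ∧
    ∀ L : ℕ, 1 ≤ L → ∀ S : Finset (ℤ × ℤ), S ⊆ lattice m → AtMost L S →
      (S.card : ℝ) ≤ √(L : ℝ) * (n : ℝ) ^ (1 / 2 - c / Real.log (Real.log n)) := by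
  classical
  intro c hc
  obtain ⟨c', hc', h'⟩ : ∃ c' : ℝ, max (2 * c) 0 < c' ∧ c' < Real.log 2 / 2 :=
    exists_between (max_lt (by linarith)
      (by have := Real.log_pos (show (1:ℝ) < 2 by norm_num); linarith))
  have hc1 : 2 * c < c' := (le_max_left _ _).trans_lt hc'
  have hc2 : 0 < c' := (le_max_right _ _).trans_lt hc'
  obtain ⟨n₀, h⟩ := Pool.Agent.Y821.DD.distinct c' h'
  refine ⟨max n₀ 16, fun m n hm hn => ?_⟩
  have hm0 : n₀ ≤ m := (le_max_left _ _).trans hm
  have hm16 : 16 ≤ m := (le_max_right _ _).trans hm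
  have hsq : Nat.sqrt n = m := by rw [hn, pow_two]; exact Nat.sqrt_eq m
  have hmR : (16 : ℝ) ≤ (m : ℝ) := by exact_mod_cast hm16
  have hmpos : (0 : ℝ) < m := by linarith
  have hnR : (n : ℝ) = (m : ℝ) ^ (2 : ℝ) := by
    rw [hn]; push_cast; norm_num
  have hlogm : (1 : ℝ) < Real.log m := by
    rw [Real.lt_log_iff_exp_lt hmpos]
    have := Real.exp_one_lt_d9
    linarith
  have hlogn : Real.log n = 2 * Real.log m := by
    rw [hnR, Real.log_rpow hmpos]
  have hll : Real.log (Real.log m) ≤ Real.log (Real.log n) := by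
    apply Real.log_le_log (by linarith)
    rw [hlogn]; linarith
  have hllpos : 0 < Real.log (Real.log m) := Real.log_pos hlogm
  have hpow : (m : ℝ) ^ (1 - c' / Real.log (Real.log m)) ≤
      (n : ℝ) ^ (1 / 2 - c / Real.log (Real.log n)) := by
    have e : (n : ℝ) ^ (1 / 2 - c / Real.log (Real.log n)) =
        (m : ℝ) ^ (2 * (1 / 2 - c / Real.log (Real.log n))) := by
      rw [Real.rpow_mul hmpos.le, ← hnR]
    rw [e]
    apply Real.rpow_le_rpow_of_exponent_le (by linarith)
    have h1 : 2 * c / Real.log (Real.log n) ≤ c' / Real.log (Real.log m) := by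
      rcases le_total c 0 with h0 | h0
      · have h2 : 2 * c / Real.log (Real.log n) ≤ 0 :=
          div_nonpos_of_nonpos_of_nonneg (by linarith) (by linarith)
        have h3 : 0 ≤ c' / Real.log (Real.log m) := by positivity
        linarith
      · exact div_le_div₀ hc2.le hc1.le hllpos hll
    have h2 : 2 * (1 / 2 - c / Real.log (Real.log (n : ℝ))) =
        1 - 2 * c / Real.log (Real.log (n : ℝ)) := by ring
    rw [h2]
    linarith
  have key : ∀ L : ℕ, 1 ≤ L → ∀ S : Finset (ℤ × ℤ), S ⊆ lattice m → AtMost L S →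
      (S.card : ℝ) ≤ √(L : ℝ) * (n : ℝ) ^ (1 / 2 - c / Real.log (Real.log n)) := by
    intro L hL S hS hA
    refine (h m hm0 S ?_ L hL ?_).trans (mul_le_mul_of_nonneg_left hpow (Real.sqrt_nonneg _))
    · intro a ha
      have := hS ha
      rw [lattice, mem_product, mem_Icc, mem_Icc] at this
      exact this
    · intro k hk
      exact atMost_nd hA k hk
  refine ⟨?_, key⟩
  have hne : ((lattice (Nat.sqrt n)).powerset.filter NoRepeat).Nonempty := by
    refine ⟨∅, ?_⟩
    rw [mem_filter, mem_powerset]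
    exact ⟨Finset.empty_subset _, fun a ha => absurd ha (Finset.notMem_empty a)⟩
  obtain ⟨S, hS, hcard⟩ := Finset.exists_mem_eq_sup _ hne Finset.card
  have hk : s n = S.card := by
    unfold s
    convert hcard
  rw [hk]
  rw [mem_filter, mem_powerset, hsq] at hS
  have := key 1 le_rfl S hS.1 (noRepeat_atMost hS.2)
  simpa using this

end Pool.Agent.Results.MP_0cbd55_co.QuarterLogTwo
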